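import Pool.Agent.helper72.ODK.Spec

/-!
# SUW (project ODK)
-/

set_option autoImplicit false

namespace Pool.Agent.helper72.UP

open Finset

theorem SUW_sum (a b : ℕ) : ∑ i ∈ range b, a.choose i ≤ 2 ^ a := by
  have h1 : ∑ i ∈ range (b + (a + 1)), a.choose i = ∑ i ∈ range (a + 1), a.choose i := by
    symm
    refine Finset.sum_subset (fun i hi => ?_) (fun i _ hi => ?_)
    · rw [mem_range] at hi ⊢
      omega
    · rw [mem_range] at hi
      exact Nat.choose_eq_zero_of_lt (by omega)
  rw [Nat.sum_range_choose] at h1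
  rw [← h1]
  refine Finset.sum_le_sum_of_subset (fun i hi => ?_)
  rw [mem_range] at hi ⊢
  omega

theorem SUW : SUW_stmt := by
  intro a b hb
  rw [Nat.add_choose_eq]
  have h1 : ∑ ij ∈ antidiagonal (b - 1), a.choose ij.1 * b.choose ij.2 ≤
      ∑ ij ∈ antidiagonal (b - 1), a.choose ij.1 * b.choose (b / 2) :=
    Finset.sum_le_sum fun ij _ => Nat.mul_le_mul_left _ (Nat.choose_le_middle _ _)
  refine h1.trans ?_
  rw [← Finset.sum_mul]
  refine Nat.mul_le_mul_right _ ?_
  have h2 := Finset.Nat.sum_antidiagonal_eq_sum_range_succ (fun i _ => a.choose i) (b - 1)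
  rw [h2]
  exact SUW_sum a _

end Pool.Agent.helper72.UP
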